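import Pool.Agent.H48.Mob.Final600

namespace Pool.Agent.Results.MP_dcc731_co.Cell600

/-- The 600-cell `{3,3,5}` is Möbius unique: for any two edge-scribed convex `4`-polytopes that
are combinatorially equivalent to the 600-cell, some Möbius transformation of `E 3 ∪ {∞}` maps
the ball-arrangement projection of the first onto that of the second. -/
theorem result : Pool.Agent.H48.Mob.MoebiusUnique Pool.Agent.H48.Mob.cell600 :=
  Pool.Agent.H48.Mob.moebiusUnique_cell600

end Pool.Agent.Results.MP_dcc731_co.Cell600
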